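import Pool.Agent.Run7.h670.MY.StmN

set_option autoImplicit false

/-! # Piece N_DIR of project MY (helper670) -/

open MeasureTheory Set
open scoped ENNReal

namespace Run7.h324.MY

open Pool.Agent.Run7.h670.MY (ray N_BATH N_DIR)

lemma lint3 {a b c : ℝ → ℝ≥0∞} (ha : Measurable a) (hb : Measurable b) :
    ∫⁻ s, (a s + b s + c s) = (∫⁻ s, a s) + (∫⁻ s, b s) + ∫⁻ s, c s := by
  have h1 : Measurable fun s => a s + b s := ha.add hb
  rw [lintegral_add_left h1, lintegral_add_left ha]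

/-- The cube of an integral, expanded according to the largest of three values. -/
lemma cube_le {g : ℝ → ℝ≥0∞} (hg : Measurable g) :
    (∫⁻ s, g s) ^ 3 ≤ 3 * ∫⁻ s, g s * (∫⁻ u, if g u ≤ g s then g u else 0) ^ 2 := by
  set k : ℝ → ℝ → ℝ≥0∞ := fun s u => if g u ≤ g s then g u else 0 with hk
  have hk2 : Measurable (fun p : ℝ × ℝ => k p.1 p.2) :=
    Measurable.ite (measurableSet_le (hg.comp measurable_snd) (hg.comp measurable_fst))
      (hg.comp measurable_snd) measurable_const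
  have hk1 : ∀ s, Measurable (k s) := fun s => hk2.comp (measurable_const.prodMk measurable_id)
  have hk1' : ∀ u, Measurable (fun s => k s u) := fun u =>
    hk2.comp (measurable_id.prodMk measurable_const)
  set K : ℝ → ℝ≥0∞ := fun s => ∫⁻ u, k s u with hK
  have hKm : Measurable K := Measurable.lintegral_prod_right' hk2
  -- three terms
  have h1 : (∫⁻ s, g s) ^ 3 = ∫⁻ s₁, ∫⁻ s₂, ∫⁻ s₃, g s₁ * g s₂ * g s₃ := by
    have a1 : ∀ s₁ s₂, ∫⁻ s₃, g s₁ * g s₂ * g s₃ = g s₁ * g s₂ * ∫⁻ s, g s := fun s₁ s₂ =>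
      lintegral_const_mul _ hg
    have a2 : ∀ s₁, ∫⁻ s₂, ∫⁻ s₃, g s₁ * g s₂ * g s₃ = g s₁ * (∫⁻ s, g s) * ∫⁻ s, g s := by
      intro s₁
      simp_rw [a1]
      rw [lintegral_mul_const _ (hg.const_mul _), lintegral_const_mul _ hg]
    simp_rw [a2]
    rw [lintegral_mul_const _ (hg.mul_const _), lintegral_mul_const _ hg]
    ring
  have hI : ∫⁻ s₁, ∫⁻ s₂, g s₂ * k s₂ s₁ * K s₂ = ∫⁻ s, g s * K s ^ 2 := by
    rw [lintegral_lintegral_swap]
    · refine lintegral_congr fun s => ?_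
      calc ∫⁻ s₁, g s * k s s₁ * K s = ∫⁻ s₁, (g s * K s) * k s s₁ := by
            refine lintegral_congr fun u => ?_
            ring
        _ = (g s * K s) * K s := lintegral_const_mul _ (hk1 s)
        _ = g s * K s ^ 2 := by ring
    · refine Measurable.aemeasurable ?_
      exact ((hg.comp measurable_snd).mul (hk2.comp measurable_swap)).mul (hKm.comp measurable_snd)
  have hpt : ∀ s₁ s₂ s₃, g s₁ * g s₂ * g s₃ ≤
      g s₁ * k s₁ s₂ * k s₁ s₃ + g s₂ * k s₂ s₁ * k s₂ s₃ + g s₃ * k s₃ s₁ * k s₃ s₂ := by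
    intro s₁ s₂ s₃
    simp only [hk]
    rcases le_total (g s₁) (g s₂) with h12 | h12
    · rcases le_total (g s₂) (g s₃) with h23 | h23
      · rw [if_pos (h12.trans h23), if_pos h23]
        refine le_trans (le_of_eq ?_) le_add_self
        ring
      · have : g s₁ * g s₂ * g s₃ = g s₂ * (if g s₁ ≤ g s₂ then g s₁ else 0) *
            (if g s₃ ≤ g s₂ then g s₃ else 0) := by
          rw [if_pos h12, if_pos h23]; ring
        rw [this]
        exact le_trans le_add_self le_self_add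
    · rcases le_total (g s₁) (g s₃) with h13 | h13
      · have : g s₁ * g s₂ * g s₃ = g s₃ * (if g s₁ ≤ g s₃ then g s₁ else 0) *
            (if g s₂ ≤ g s₃ then g s₂ else 0) := by
          rw [if_pos h13, if_pos (h12.trans h13)]; ring
        rw [this]
        exact le_add_self
      · have : g s₁ * g s₂ * g s₃ = g s₁ * (if g s₂ ≤ g s₁ then g s₂ else 0) *
            (if g s₃ ≤ g s₁ then g s₃ else 0) := by
          rw [if_pos h12, if_pos h13]
        rw [this, add_assoc]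
        exact le_self_add
  have e1 : ∀ s₁ s₂, ∫⁻ s₃, g s₁ * k s₁ s₂ * k s₁ s₃ = g s₁ * k s₁ s₂ * K s₁ := fun s₁ s₂ =>
    lintegral_const_mul _ (hk1 s₁)
  have e2 : ∀ s₁ s₂, ∫⁻ s₃, g s₂ * k s₂ s₁ * k s₂ s₃ = g s₂ * k s₂ s₁ * K s₂ := fun s₁ s₂ =>
    lintegral_const_mul _ (hk1 s₂)
  have m1 : ∀ s₁ s₂, Measurable (fun s₃ => g s₁ * k s₁ s₂ * k s₁ s₃) := fun s₁ s₂ =>
    (hk1 s₁).const_mul _
  have m2 : ∀ s₁ s₂, Measurable (fun s₃ => g s₂ * k s₂ s₁ * k s₂ s₃) := fun s₁ s₂ =>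
    (hk1 s₂).const_mul _
  have hkk : Measurable (fun p : ℝ × ℝ => g p.1 * k p.1 p.2 * K p.1) :=
    ((hg.comp measurable_fst).mul hk2).mul (hKm.comp measurable_fst)
  have hkk' : Measurable (fun p : ℝ × ℝ => g p.2 * k p.2 p.1 * K p.2) :=
    ((hg.comp measurable_snd).mul (hk2.comp measurable_swap)).mul (hKm.comp measurable_snd)
  have hJ : ∀ s₁, ∫⁻ s₂, ∫⁻ s₃, g s₃ * k s₃ s₁ * k s₃ s₂ = ∫⁻ s₃, g s₃ * k s₃ s₁ * K s₃ := by
    intro s₁
    rw [lintegral_lintegral_swap]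
    · exact lintegral_congr fun s₃ => lintegral_const_mul _ (hk1 s₃)
    · refine Measurable.aemeasurable ?_
      exact ((hg.comp measurable_snd).mul ((hk1' s₁).comp measurable_snd)).mul
        (hk2.comp measurable_swap)
  have m3 : ∀ s₁, Measurable (fun p : ℝ × ℝ => g p.2 * k p.2 s₁ * k p.2 p.1) := fun s₁ =>
    ((hg.comp measurable_snd).mul ((hk1' s₁).comp measurable_snd)).mul (hk2.comp measurable_swap)
  have a1 : ∀ s₁, Measurable fun s₂ => g s₁ * k s₁ s₂ * K s₁ := fun s₁ =>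
    hkk.comp (measurable_const.prodMk measurable_id)
  have a2 : ∀ s₁, Measurable fun s₂ => g s₂ * k s₂ s₁ * K s₂ := fun s₁ =>
    hkk'.comp (measurable_const.prodMk measurable_id)
  have hsum : ∀ s₁, ∫⁻ s₂, ∫⁻ s₃, (g s₁ * k s₁ s₂ * k s₁ s₃ + g s₂ * k s₂ s₁ * k s₂ s₃ +
      g s₃ * k s₃ s₁ * k s₃ s₂) = (∫⁻ s₂, g s₁ * k s₁ s₂ * K s₁) +
      (∫⁻ s₂, g s₂ * k s₂ s₁ * K s₂) + ∫⁻ s₂, g s₂ * k s₂ s₁ * K s₂ := by
    intro s₁
    have b1 : ∀ s₂, ∫⁻ s₃, (g s₁ * k s₁ s₂ * k s₁ s₃ + g s₂ * k s₂ s₁ * k s₂ s₃ +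
        g s₃ * k s₃ s₁ * k s₃ s₂) = g s₁ * k s₁ s₂ * K s₁ + g s₂ * k s₂ s₁ * K s₂ +
        ∫⁻ s₃, g s₃ * k s₃ s₁ * k s₃ s₂ := by
      intro s₂
      rw [lint3 (m1 s₁ s₂) (m2 s₁ s₂), e1, e2]
    simp_rw [b1]
    rw [lint3 (a1 s₁) (a2 s₁), hJ s₁]
  have c1 : ∫⁻ s₁, ∫⁻ s₂, g s₁ * k s₁ s₂ * K s₁ = ∫⁻ s, g s * K s ^ 2 := by
    refine lintegral_congr fun s => ?_
    calc ∫⁻ s₂, g s * k s s₂ * K s = ∫⁻ s₂, (g s * K s) * k s s₂ := by
          refine lintegral_congr fun u => ?_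
          ring
      _ = (g s * K s) * K s := lintegral_const_mul _ (hk1 s)
      _ = g s * K s ^ 2 := by ring
  calc (∫⁻ s, g s) ^ 3 = ∫⁻ s₁, ∫⁻ s₂, ∫⁻ s₃, g s₁ * g s₂ * g s₃ := h1
    _ ≤ ∫⁻ s₁, ∫⁻ s₂, ∫⁻ s₃, (g s₁ * k s₁ s₂ * k s₁ s₃ + g s₂ * k s₂ s₁ * k s₂ s₃ +
          g s₃ * k s₃ s₁ * k s₃ s₂) :=
        lintegral_mono fun s₁ => lintegral_mono fun s₂ => lintegral_mono fun s₃ => hpt s₁ s₂ s₃
    _ = ∫⁻ s₁, ((∫⁻ s₂, g s₁ * k s₁ s₂ * K s₁) + (∫⁻ s₂, g s₂ * k s₂ s₁ * K s₂) +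
          ∫⁻ s₂, g s₂ * k s₂ s₁ * K s₂) := lintegral_congr hsum
    _ = (∫⁻ s₁, ∫⁻ s₂, g s₁ * k s₁ s₂ * K s₁) + (∫⁻ s₁, ∫⁻ s₂, g s₂ * k s₂ s₁ * K s₂) +
          ∫⁻ s₁, ∫⁻ s₂, g s₂ * k s₂ s₁ * K s₂ :=
        lint3 (Measurable.lintegral_prod_right' hkk) (Measurable.lintegral_prod_right' hkk')
    _ = 3 * ∫⁻ s, g s * K s ^ 2 := by
        rw [hI, c1]
        ring

/-- the rotation -/
noncomputable def rot (θ : ℝ) (z : ℝ × ℝ) : ℝ × ℝ :=
  (z.1 * Real.cos θ - z.2 * Real.sin θ, z.1 * Real.sin θ + z.2 * Real.cos θ)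

/-- the direction of the line -/
noncomputable def dir (θ : ℝ) : ℝ × ℝ := (-Real.sin θ, Real.cos θ)

lemma rot_add (θ t s u : ℝ) : rot θ (t, s + u) = rot θ (t, s) + u • dir θ := by
  ext
  · simp [rot, dir]; ring
  · simp [rot, dir]; ring

lemma measurePreserving_rot (θ : ℝ) :
    MeasurePreserving (rot θ) (volume : Measure (ℝ × ℝ)) volume := by
  set L := Matrix.toLin (Module.Basis.finTwoProd ℝ) (Module.Basis.finTwoProd ℝ)
    !![Real.cos θ, -Real.sin θ; Real.sin θ, Real.cos θ] with hL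
  have hdet : LinearMap.det L = 1 := by
    rw [hL, LinearMap.det_toLin, Matrix.det_fin_two_of]
    have := Real.sin_sq_add_cos_sq θ
    nlinarith
  have hLr : (L : ℝ × ℝ → ℝ × ℝ) = rot θ := by
    funext z
    rw [hL, Matrix.toLin_finTwoProd_apply]
    simp only [rot]
    ext
    · simp only; ring
    · simp only; ring
  have hm := MeasureTheory.Measure.map_linearMap_addHaar_eq_smul_addHaar
    (volume : Measure (ℝ × ℝ)) (f := L) (by rw [hdet]; exact one_ne_zero)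
  rw [hdet, hLr] at hm
  refine ⟨?_, ?_⟩
  · unfold rot
    fun_prop
  · rw [hm]
    simp

lemma lintegral_rot (θ : ℝ) {Ψ : ℝ × ℝ → ℝ≥0∞} (hΨ : Measurable Ψ) :
    ∫⁻ t : ℝ, ∫⁻ s : ℝ, Ψ (rot θ (t, s)) = ∫⁻ z : ℝ × ℝ, Ψ z := by
  have hm : Measurable (fun z : ℝ × ℝ => Ψ (rot θ z)) :=
    hΨ.comp (measurePreserving_rot θ).measurable
  rw [← (measurePreserving_rot θ).lintegral_comp hΨ, Measure.volume_eq_prod,
    lintegral_prod _ hm.aemeasurable]

/-- polar coordinates over all directions: every point is counted twice -/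
lemma polar_twice {φ : ℝ × ℝ → ℝ≥0∞} (hφ : Measurable φ) :
    ∫⁻ θ in Ioo (-Real.pi) Real.pi, ∫⁻ u : ℝ, ENNReal.ofReal |u| * φ (u • dir θ) ≤
      2 * ∫⁻ y : ℝ × ℝ, φ y := by
  -- the two rotations by a right angle
  have key : ∀ R : ℝ × ℝ → ℝ × ℝ, MeasurePreserving R volume volume →
      ∫⁻ θ in Ioo (-Real.pi) Real.pi, ∫⁻ u in Ioi (0 : ℝ), ENNReal.ofReal u *
        φ (R (u * Real.cos θ, u * Real.sin θ)) = ∫⁻ y : ℝ × ℝ, φ y := by
    intro R hR
    have hφR : Measurable (fun z => φ (R z)) := hφ.comp hR.measurable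
    rw [← hR.lintegral_comp hφ, ← lintegral_comp_polarCoord_symm (fun z => φ (R z))]
    have ht : polarCoord.target = Ioi (0 : ℝ) ×ˢ Ioo (-Real.pi) Real.pi := rfl
    have hmeas : Measurable fun p : ℝ × ℝ => ENNReal.ofReal p.1 *
        φ (R (p.1 * Real.cos p.2, p.1 * Real.sin p.2)) := by
      refine (ENNReal.measurable_ofReal.comp measurable_fst).mul (hφR.comp ?_)
      fun_prop
    have h1 : ∫⁻ p in polarCoord.target, ENNReal.ofReal p.1 • φ (R (polarCoord.symm p))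
        = ∫⁻ p in Ioi (0 : ℝ) ×ˢ Ioo (-Real.pi) Real.pi, ENNReal.ofReal p.1 *
          φ (R (p.1 * Real.cos p.2, p.1 * Real.sin p.2)) := by
      rw [ht]
      rfl
    rw [h1, Measure.volume_eq_prod, ← Measure.prod_restrict,
      lintegral_prod_symm _ hmeas.aemeasurable]
  have hR1 : MeasurePreserving (fun z : ℝ × ℝ => ((-z.2, z.1) : ℝ × ℝ)) volume volume := by
    have h1 := (Measure.measurePreserving_neg (volume : Measure ℝ)).prod
      (MeasurePreserving.id (volume : Measure ℝ))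
    have h2 := h1.comp (Measure.measurePreserving_swap (μ := (volume : Measure ℝ))
      (ν := (volume : Measure ℝ)))
    exact h2
  have hR2 : MeasurePreserving (fun z : ℝ × ℝ => ((z.2, -z.1) : ℝ × ℝ)) volume volume := by
    have h1 := (MeasurePreserving.id (volume : Measure ℝ)).prod
      (Measure.measurePreserving_neg (volume : Measure ℝ))
    have h2 := h1.comp (Measure.measurePreserving_swap (μ := (volume : Measure ℝ))
      (ν := (volume : Measure ℝ)))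
    exact h2
  have hsplit : ∀ θ : ℝ, ∫⁻ u : ℝ, ENNReal.ofReal |u| * φ (u • dir θ) =
      (∫⁻ u in Ioi (0 : ℝ), ENNReal.ofReal u * φ (-(u * Real.sin θ), u * Real.cos θ)) +
      ∫⁻ u in Ioi (0 : ℝ), ENNReal.ofReal u * φ (u * Real.sin θ, -(u * Real.cos θ)) := by
    intro θ
    rw [← lintegral_add_compl _ (measurableSet_Ioi (a := (0 : ℝ)))]
    congr 1
    · refine setLIntegral_congr_fun measurableSet_Ioi fun u hu => ?_
      have hu' : (0 : ℝ) < u := hu
      simp only [abs_of_pos hu', dir, Prod.smul_mk, smul_eq_mul, mul_neg]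
    · rw [compl_Ioi, ← setLIntegral_congr (Iio_ae_eq_Iic (a := (0 : ℝ)))]
      have hneg := (Measure.measurePreserving_neg (volume : Measure ℝ))
      have hpre : (fun u : ℝ => -u) ⁻¹' (Iio (0 : ℝ)) = Ioi 0 := by
        ext u; simp
      have h3 := hneg.setLIntegral_comp_preimage (s := Iio (0 : ℝ)) measurableSet_Iio
        (f := fun u => ENNReal.ofReal |u| * φ (u • dir θ)) (by
          refine (ENNReal.measurable_ofReal.comp measurable_id.abs).mul (hφ.comp ?_)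
          exact measurable_id.smul_const _)
      rw [← h3, hpre]
      refine setLIntegral_congr_fun measurableSet_Ioi fun u hu => ?_
      have hu' : (0 : ℝ) < u := hu
      simp only [abs_neg, abs_of_pos hu', dir, Prod.smul_mk, smul_eq_mul, neg_mul, mul_neg, neg_neg]
  have hma : Measurable fun θ : ℝ => ∫⁻ u in Ioi (0 : ℝ), ENNReal.ofReal u *
      φ (-(u * Real.sin θ), u * Real.cos θ) := by
    refine Measurable.lintegral_prod_right' (f := fun p : ℝ × ℝ => ENNReal.ofReal p.2 *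
      φ (-(p.2 * Real.sin p.1), p.2 * Real.cos p.1)) ?_
    refine (ENNReal.measurable_ofReal.comp measurable_snd).mul (hφ.comp ?_)
    fun_prop
  simp_rw [hsplit]
  rw [lintegral_add_left hma]
  have k1 := key _ hR1
  have k2 := key _ hR2
  simp only at k1 k2
  rw [k1, k2, two_mul]

/-- the part of `f` below the level of `x` -/
noncomputable def low (f : ℝ × ℝ → ℝ≥0∞) (x y : ℝ × ℝ) : ℝ≥0∞ := if f y ≤ f x then f y else 0

lemma measurable_low {f : ℝ × ℝ → ℝ≥0∞} (hf : Measurable f) :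
    Measurable (fun p : (ℝ × ℝ) × (ℝ × ℝ) => low f p.1 p.2) :=
  Measurable.ite (measurableSet_le (hf.comp measurable_snd) (hf.comp measurable_fst))
    (hf.comp measurable_snd) measurable_const

lemma low_le (f : ℝ × ℝ → ℝ≥0∞) (x y : ℝ × ℝ) : low f x y ≤ f x := by
  unfold low
  split_ifs with h
  · exact h
  · exact zero_le

lemma low_le' (f : ℝ × ℝ → ℝ≥0∞) (x y : ℝ × ℝ) : low f x y ≤ f y := by
  unfold low
  split_ifs with h
  · exact le_rfl
  · exact zero_le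

lemma measurable_dir : Measurable dir := by unfold dir; fun_prop

theorem main_ineq (hB : N_BATH) {f : ℝ × ℝ → ℝ≥0∞} (hf : Measurable f) (hM : ∫⁻ z, f z ≠ ⊤) :
    ∫⁻ θ in Ioo (-Real.pi) Real.pi, ∫⁻ t : ℝ, (∫⁻ s : ℝ, f (rot θ (t, s))) ^ 3 ≤
      24 * (∫⁻ z, f z) * ∫⁻ z, f z ^ 2 := by
  -- the measurability of the auxiliary integrals
  have hsh : Measurable (fun q : (ℝ × (ℝ × ℝ)) × ℝ => (q.1.2, q.1.2 + q.2 • dir q.1.1)) := by
    unfold dir
    fun_prop
  have hHm : Measurable (fun p : ℝ × (ℝ × ℝ) => ∫⁻ u : ℝ, low f p.2 (p.2 + u • dir p.1)) :=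
    Measurable.lintegral_prod_right' ((measurable_low hf).comp hsh)
  have hBm : Measurable (fun p : ℝ × (ℝ × ℝ) =>
      ∫⁻ u : ℝ, ENNReal.ofReal |u| * low f p.2 (p.2 + u • dir p.1)) :=
    Measurable.lintegral_prod_right' (f := fun q : (ℝ × (ℝ × ℝ)) × ℝ =>
      ENNReal.ofReal |q.2| * low f q.1.2 (q.1.2 + q.2 • dir q.1.1))
      ((ENNReal.measurable_ofReal.comp measurable_snd.abs).mul ((measurable_low hf).comp hsh))
  set H : ℝ → ℝ × ℝ → ℝ≥0∞ := fun θ x => ∫⁻ u : ℝ, low f x (x + u • dir θ) with hH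
  set B : ℝ → ℝ × ℝ → ℝ≥0∞ := fun θ x =>
    ∫⁻ u : ℝ, ENNReal.ofReal |u| * low f x (x + u • dir θ) with hBdef
  have hHθ : ∀ θ, Measurable (H θ) := fun θ => hHm.comp (measurable_const.prodMk measurable_id)
  -- one direction
  have h1 : ∀ θ : ℝ, ∫⁻ t : ℝ, (∫⁻ s : ℝ, f (rot θ (t, s))) ^ 3 ≤
      3 * ∫⁻ x, f x * H θ x ^ 2 := by
    intro θ
    have hrot : Measurable (rot θ) := (measurePreserving_rot θ).measurable
    have ha : ∀ t : ℝ, (∫⁻ s : ℝ, f (rot θ (t, s))) ^ 3 ≤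
        3 * ∫⁻ s : ℝ, (fun x => f x * H θ x ^ 2) (rot θ (t, s)) := by
      intro t
      refine (cube_le (g := fun s => f (rot θ (t, s))) (by
        exact hf.comp (hrot.comp (measurable_const.prodMk measurable_id)))).trans ?_
      refine le_of_eq ?_
      congr 1
      refine lintegral_congr fun s => ?_
      change f (rot θ (t, s)) * _ ^ 2 = f (rot θ (t, s)) * H θ (rot θ (t, s)) ^ 2
      congr 2
      rw [← lintegral_add_left_eq_self _ s]
      refine lintegral_congr fun u => ?_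
      rw [rot_add]
      rfl
    calc ∫⁻ t : ℝ, (∫⁻ s : ℝ, f (rot θ (t, s))) ^ 3
        ≤ ∫⁻ t : ℝ, 3 * ∫⁻ s : ℝ, (fun x => f x * H θ x ^ 2) (rot θ (t, s)) := lintegral_mono ha
      _ = 3 * ∫⁻ t : ℝ, ∫⁻ s : ℝ, (fun x => f x * H θ x ^ 2) (rot θ (t, s)) :=
          lintegral_const_mul' _ _ (by norm_num)
      _ = 3 * ∫⁻ x, f x * H θ x ^ 2 := by
          have hmm : Measurable (fun x => f x * H θ x ^ 2) := hf.mul ((hHθ θ).pow_const 2)
          rw [lintegral_rot θ hmm]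
  -- the bathtub inequality
  have h2 : ∀ θ : ℝ, ∫⁻ x, f x * H θ x ^ 2 ≤ ∫⁻ x, 4 * f x ^ 2 * B θ x := by
    intro θ
    refine lintegral_mono_ae ?_
    filter_upwards [ae_lt_top hf hM] with x hx
    have hgm : Measurable (fun u : ℝ => low f x (x + u • dir θ)) := by
      have h0 : Measurable (fun u : ℝ => (x, x + u • dir θ)) := by fun_prop
      exact (measurable_low hf).comp h0
    have hb := hB (fun u => low f x (x + u • dir θ)) (f x) hgm hx.ne (fun u => low_le _ _ _)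
    calc f x * H θ x ^ 2 ≤ f x * (4 * f x * B θ x) := by gcongr
      _ = 4 * f x ^ 2 * B θ x := by ring
  -- polar coordinates
  have h3 : ∀ x, ∫⁻ θ in Ioo (-Real.pi) Real.pi, B θ x ≤ 2 * ∫⁻ z, f z := by
    intro x
    have hgm : Measurable (fun v : ℝ × ℝ => low f x (x + v)) := by
      have h0 : Measurable (fun v : ℝ × ℝ => (x, x + v)) := by fun_prop
      exact (measurable_low hf).comp h0
    have h4 := polar_twice (φ := fun v => low f x (x + v)) hgm
    have h5 : ∫⁻ v : ℝ × ℝ, low f x (x + v) ≤ ∫⁻ z, f z :=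
      calc ∫⁻ v : ℝ × ℝ, low f x (x + v) = ∫⁻ y, low f x y :=
            lintegral_add_left_eq_self (fun y => low f x y) x
        _ ≤ ∫⁻ z, f z := lintegral_mono fun y => low_le' _ _ _
    exact h4.trans (mul_le_mul_right h5 2)
  calc ∫⁻ θ in Ioo (-Real.pi) Real.pi, ∫⁻ t : ℝ, (∫⁻ s : ℝ, f (rot θ (t, s))) ^ 3
      ≤ ∫⁻ θ in Ioo (-Real.pi) Real.pi, 3 * ∫⁻ x, 4 * f x ^ 2 * B θ x :=
        lintegral_mono fun θ => (h1 θ).trans (mul_le_mul_right (h2 θ) 3)
    _ = 3 * ∫⁻ θ in Ioo (-Real.pi) Real.pi, ∫⁻ x, 4 * f x ^ 2 * B θ x :=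
        lintegral_const_mul' _ _ (by norm_num)
    _ = 3 * ∫⁻ x, ∫⁻ θ in Ioo (-Real.pi) Real.pi, 4 * f x ^ 2 * B θ x := by
        rw [lintegral_lintegral_swap]
        refine Measurable.aemeasurable ?_
        exact (((hf.comp measurable_snd).pow_const 2).const_mul 4).mul hBm
    _ = 3 * ∫⁻ x, 4 * f x ^ 2 * ∫⁻ θ in Ioo (-Real.pi) Real.pi, B θ x := by
        congr 1
        refine lintegral_congr fun x => ?_
        rw [lintegral_const_mul]
        exact hBm.comp (measurable_id.prodMk measurable_const)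
    _ ≤ 3 * ∫⁻ x, 4 * f x ^ 2 * (2 * ∫⁻ z, f z) := by
        gcongr with x
        exact h3 x
    _ = 24 * (∫⁻ z, f z) * ∫⁻ z, f z ^ 2 := by
        rw [lintegral_mul_const _ ((hf.pow_const 2).const_mul 4),
          lintegral_const_mul _ (hf.pow_const 2)]
        ring

theorem t_N_DIR (hB : N_BATH) : N_DIR := by
  intro F hF
  set f : ℝ × ℝ → ℝ≥0∞ := fun z => F z.1 z.2 with hf
  have hray : ∀ θ t, ray F θ t = ∫⁻ s : ℝ, f (rot θ (t, s)) := fun θ t => rfl
  have hpi : 0 < Real.pi := Real.pi_pos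
  have h12 : ENNReal.ofReal (12 / Real.pi) ≠ 0 := by
    rw [Ne, ENNReal.ofReal_eq_zero, not_le]
    positivity
  by_cases hM : ∫⁻ z, f z = ⊤
  · -- the right side is infinite
    have hQ : ∫⁻ z, f z ^ 2 ≠ 0 := by
      intro h0
      rw [lintegral_eq_zero_iff (hF.pow_const 2)] at h0
      have : ∫⁻ z, f z = 0 := by
        rw [lintegral_eq_zero_iff hF]
        filter_upwards [h0] with z hz
        simpa using hz
      rw [this] at hM
      exact ENNReal.zero_ne_top hM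
    refine ⟨0, ?_⟩
    have : ENNReal.ofReal (12 / Real.pi) * (∫⁻ z, f z) * ∫⁻ z, f z ^ 2 = ⊤ := by
      rw [hM, ENNReal.mul_top h12, ENNReal.top_mul hQ]
    change _ ≤ ENNReal.ofReal (12 / Real.pi) * (∫⁻ z, f z) * ∫⁻ z, f z ^ 2
    rw [this]
    exact le_top
  · have hmain := main_ineq hB hF hM
    have hmeas : Measurable (fun θ : ℝ => ∫⁻ t : ℝ, (∫⁻ s : ℝ, f (rot θ (t, s))) ^ 3) := by
      have h1 : Measurable (fun q : (ℝ × ℝ) × ℝ => f (rot q.1.1 (q.1.2, q.2))) := by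
        refine hF.comp ?_
        unfold rot
        fun_prop
      have h2 : Measurable (fun p : ℝ × ℝ => ∫⁻ s : ℝ, f (rot p.1 (p.2, s))) :=
        Measurable.lintegral_prod_right' h1
      exact Measurable.lintegral_prod_right' (f := fun p : ℝ × ℝ =>
        (∫⁻ s : ℝ, f (rot p.1 (p.2, s))) ^ 3) (h2.pow_const 3)
    have hvol : (volume : Measure ℝ) (Ioo (-Real.pi) Real.pi) = ENNReal.ofReal (2 * Real.pi) := by
      rw [Real.volume_Ioo]
      congr 1
      ring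
    obtain ⟨θ, -, hθ⟩ := exists_le_setLAverage (μ := (volume : Measure ℝ))
      (s := Ioo (-Real.pi) Real.pi) (by
        rw [hvol, Ne, ENNReal.ofReal_eq_zero, not_le]; positivity) (by
        rw [hvol]; exact ENNReal.ofReal_ne_top) hmeas.aemeasurable
    refine ⟨θ, ?_⟩
    change ∫⁻ t : ℝ, (∫⁻ s : ℝ, f (rot θ (t, s))) ^ 3 ≤ _
    refine hθ.trans ?_
    rw [setLAverage_eq, hvol]
    change _ ≤ ENNReal.ofReal (12 / Real.pi) * (∫⁻ z, f z) * ∫⁻ z, f z ^ 2
    refine ENNReal.div_le_of_le_mul ?_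
    refine hmain.trans (le_of_eq ?_)
    have h24 : (24 : ℝ≥0∞) = ENNReal.ofReal (12 / Real.pi) * ENNReal.ofReal (2 * Real.pi) := by
      rw [← ENNReal.ofReal_mul (by positivity)]
      have : 12 / Real.pi * (2 * Real.pi) = 24 := by field_simp; norm_num
      rw [this]
      simp
    rw [h24]
    ring

end Run7.h324.MY
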